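import Pool.Agent.helper73.NH.Spec

/-!
# NH, row NPB: nilpotent groups
-/

set_option autoImplicit false

namespace Pool.Agent.NH

open Matrix Module Pool.Agent.PR Pool.Agent.SHL Polynomial TensorProduct

theorem NPB_pow {V₁ V₂ : Type} [AddCommGroup V₁] [Module ℚ V₁] [AddCommGroup V₂]
    [Module ℚ V₂] (T : V₁ →ₗ[ℚ] V₂) (A₁ : Module.End ℚ V₁) (A₂ : Module.End ℚ V₂)
    (h : ∀ v, T (A₁ v) = A₂ (T v)) (n : ℕ) : ∀ v : V₁, T ((A₁ ^ n) v) = (A₂ ^ n) (T v) := by
  induction n with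
  | zero => intro v; rfl
  | succ n ih =>
    intro v
    rw [pow_succ, pow_succ, Module.End.mul_apply, Module.End.mul_apply, ih, h]

theorem NPB_aeval {V₁ V₂ : Type} [AddCommGroup V₁] [Module ℚ V₁] [AddCommGroup V₂]
    [Module ℚ V₂] (T : V₁ →ₗ[ℚ] V₂) (A₁ : Module.End ℚ V₁) (A₂ : Module.End ℚ V₂)
    (h : ∀ v, T (A₁ v) = A₂ (T v)) (p : ℤ[X]) :
    ∀ v : V₁, T ((aeval A₁ p) v) = (aeval A₂ p) (T v) := by
  induction p using Polynomial.induction_on' with
  | add p q hp hq =>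
    intro v
    rw [map_add, map_add, LinearMap.add_apply, LinearMap.add_apply, map_add, hp, hq]
  | monomial n c =>
    intro v
    rw [Polynomial.aeval_monomial, Polynomial.aeval_monomial, eq_intCast, eq_intCast,
      Module.End.mul_apply, Module.End.mul_apply, Module.End.intCast_apply,
      Module.End.intCast_apply, map_zsmul, NPB_pow T A₁ A₂ h n]

theorem NPB_int {V₁ V₂ : Type} [AddCommGroup V₁] [Module ℚ V₁] [AddCommGroup V₂]
    [Module ℚ V₂] (T : V₁ →ₗ[ℚ] V₂) (hT : Function.Surjective T) (A₁ : Module.End ℚ V₁)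
    (A₂ : Module.End ℚ V₂) (h : ∀ v, T (A₁ v) = A₂ (T v)) (hA : IsIntegral ℤ A₁) :
    IsIntegral ℤ A₂ := by
  obtain ⟨p, hp, hp0⟩ := hA
  refine ⟨p, hp, ?_⟩
  rw [← Polynomial.aeval_def] at hp0 ⊢
  ext v
  obtain ⟨u, rfl⟩ := hT v
  rw [← NPB_aeval T A₁ A₂ h p u, hp0, LinearMap.zero_apply, LinearMap.zero_apply, map_zero]

section

variable {V Q : Type} [AddCommGroup V] [Module ℚ V] [Group Q]

/-- base change to the algebraic closure -/
noncomputable def NPB_bc (ρ : Q →* Module.End ℚ V) :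
    Q →* Module.End (AlgebraicClosure ℚ) (AlgebraicClosure ℚ ⊗[ℚ] V) :=
  MonoidHom.comp (Module.End.baseChangeHom ℚ (AlgebraicClosure ℚ) V :
    Module.End ℚ V →* Module.End (AlgebraicClosure ℚ) (AlgebraicClosure ℚ ⊗[ℚ] V)) ρ

theorem NPB_sub (ρ : Q →* Module.End ℚ V) (g : Q) :
    NPB_bc ρ g - 1 = Module.End.baseChangeHom ℚ (AlgebraicClosure ℚ) V (ρ g - 1) := by
  rw [map_sub, map_one]
  rfl

theorem NPB_inj : Function.Injective (Module.End.baseChangeHom ℚ (AlgebraicClosure ℚ) V) :=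
  LinearMap.baseChangeHom_injective ℚ V (AlgebraicClosure ℚ)

theorem NPB_nil (ρ : Q →* Module.End ℚ V) (g : Q) :
    IsNilpotent (NPB_bc ρ g - 1) ↔ IsNilpotent (ρ g - 1) := by
  rw [NPB_sub]
  exact IsNilpotent.map_iff NPB_inj

theorem NPB_tmul (A : Module.End ℚ V) (c : AlgebraicClosure ℚ) (v : V) :
    Module.End.baseChangeHom ℚ (AlgebraicClosure ℚ) V A (c ⊗ₜ[ℚ] v) = c ⊗ₜ[ℚ] (A v) := rfl

/-- `Hi` and injective homomorphisms -/
theorem NPB_map (hHA : HA_stmt) (hHB : HB_stmt) {G G' : Type} [Group G] [Group G'] (φ : G →* G')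
    (hφ : Function.Injective φ) (N : ℕ) (H : Subgroup G) (h : Hi N H) : Hi N (H.map φ) := by
  obtain ⟨a, b, hab, ha, hb⟩ := hHB G G' φ N H h
  have ha0 : a = 0 := by
    refine (hHA G).2.2.2.1 a _ (fun x hx => ⟨1, one_pos, ?_⟩) ha
    have h1 : φ x = 1 := hx.2
    have h2 : x = 1 := hφ (by rw [h1, map_one])
    rw [h2, one_pow]
  rw [ha0, zero_add] at hab
  rwa [hab] at hb

end

/-- row NPB -/
theorem NPB (hHA : HA_stmt) (hHB : HB_stmt) (hMAL : Z_MAL_stmt) (hUNIP : Z_UNIP_stmt)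
    (hNCL : NCL_stmt) (hFLG : FLG_stmt) : NPB_stmt := by
  intro V _ _ _ _ Q _ hQ ρ hinj hint N hN
  have hQs : Group.IsSolvable Q := inferInstance
  obtain ⟨G₁, hG₁, hTri⟩ := hMAL (AlgebraicClosure ℚ) (AlgebraicClosure ℚ ⊗[ℚ] V) Q hQs (NPB_bc ρ)
  let ρ₁ : G₁ →* Module.End ℚ V := ρ.comp G₁.subtype
  have hTri' : TriS (NPB_bc ρ₁) := hTri
  have hinj₁ : Function.Injective ρ₁ := hinj.comp Subtype.val_injective
  have hinjK : Function.Injective (NPB_bc ρ₁) := fun g h e => hinj₁ (NPB_inj e)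
  obtain ⟨U₀, hU₀n, -, hU₀, -⟩ := hUNIP _ _ G₁ (NPB_bc ρ₁) hTri' hinjK
  set M : Submodule ℚ V := Submodule.span ℚ {w | ∃ u ∈ U₀, ∃ v, w = ρ₁ u v - v} with hM
  have hmem : ∀ u ∈ U₀, ∀ v, ρ₁ u v - v ∈ M := fun u hu v =>
    Submodule.subset_span ⟨u, hu, v, rfl⟩
  have hMinv : InvS ρ₁ M := by
    intro g
    have h1 : M ≤ M.comap (ρ₁ g) := by
      rw [hM, Submodule.span_le]
      rintro _ ⟨u, hu, v, rfl⟩
      show ρ₁ g (ρ₁ u v - v) ∈ M
      have h2 : ρ₁ g (ρ₁ u v - v) = ρ₁ (g * u * g⁻¹) (ρ₁ g v) - ρ₁ g v := by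
        rw [map_sub, ← Module.End.mul_apply, ← Module.End.mul_apply, ← map_mul, ← map_mul,
          inv_mul_cancel_right]
      rw [h2]
      exact hmem _ (hU₀n.conj_mem u hu g) _
    exact fun w hw => h1 hw
  let μ : G₁ →* Module.End ℚ (V ⧸ M) := quoS ρ₁ M hMinv
  have hμ : ∀ (g : G₁) (v : V), M.mkQ (ρ₁ g v) = μ g (M.mkQ v) := fun g v => rfl
  -- the span over the algebraic closure
  obtain ⟨hI, hI2⟩ := hNCL (AlgebraicClosure ℚ) (AlgebraicClosure ℚ ⊗[ℚ] V) G₁ inferInstance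
    (NPB_bc ρ₁) hTri' U₀ (fun u hu => (hU₀ u).1 hu)
  set I : Submodule (AlgebraicClosure ℚ) (AlgebraicClosure ℚ ⊗[ℚ] V) :=
    Submodule.span (AlgebraicClosure ℚ) {w | ∃ u ∈ U₀, ∃ v, w = NPB_bc ρ₁ u v - v} with hIdef
  have hMI : ∀ m ∈ M, (1 : AlgebraicClosure ℚ) ⊗ₜ[ℚ] m ∈ I := by
    intro m hm
    rw [hM] at hm
    induction hm using Submodule.span_induction with
    | mem x hx =>
      obtain ⟨u, hu, v, rfl⟩ := hx
      rw [TensorProduct.tmul_sub]
      exact Submodule.subset_span ⟨u, hu, (1 : AlgebraicClosure ℚ) ⊗ₜ[ℚ] v, rfl⟩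
    | zero =>
      rw [TensorProduct.tmul_zero]
      exact I.zero_mem
    | add x y _ _ hx hy =>
      rw [TensorProduct.tmul_add]
      exact I.add_mem hx hy
    | smul c x _ hx =>
      rw [TensorProduct.tmul_smul, ← algebraMap_smul (AlgebraicClosure ℚ) c]
      exact I.smul_mem _ hx
  have hMI' : ∀ (c : AlgebraicClosure ℚ), ∀ m ∈ M, c ⊗ₜ[ℚ] m ∈ I := by
    intro c m hm
    have h1 := I.smul_mem c (hMI m hm)
    rwa [TensorProduct.smul_tmul', smul_eq_mul, mul_one] at h1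
  have hMtop : M ≠ ⊤ := by
    intro h
    apply hI
    rw [eq_top_iff]
    rintro x -
    induction x using TensorProduct.induction_on with
    | zero => exact I.zero_mem
    | tmul c v => exact hMI' c v (h ▸ Submodule.mem_top)
    | add x y hx hy => exact I.add_mem hx hy
  have hkey : ∀ g : G₁, IsNilpotent (μ g - 1) → μ g = 1 := by
    rintro g ⟨k, hk⟩
    have h1 : ∀ v, ((ρ₁ g - 1) ^ k) v ∈ M := by
      intro v
      have h2 := NPB_pow M.mkQ (ρ₁ g - 1) (μ g - 1) (fun v => by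
        rw [LinearMap.sub_apply, LinearMap.sub_apply, map_sub, hμ]
        rfl) k v
      rw [hk, LinearMap.zero_apply, Submodule.mkQ_apply, Submodule.Quotient.mk_eq_zero] at h2
      exact h2
    have h2 : ∀ x, ((NPB_bc ρ₁ g - 1) ^ k) x ∈ I := by
      intro x
      rw [NPB_sub, ← map_pow]
      induction x using TensorProduct.induction_on with
      | zero =>
        rw [map_zero]
        exact I.zero_mem
      | tmul c v =>
        rw [NPB_tmul]
        exact hMI' c _ (h1 v)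
      | add x y hx hy =>
        rw [map_add]
        exact I.add_mem hx hy
    have h3 : g ∈ U₀ := (hU₀ g).2 (hI2 g k h2)
    apply LinearMap.ext
    intro x
    obtain ⟨v, rfl⟩ := M.mkQ_surjective x
    rw [← hμ, Module.End.one_apply, ← sub_eq_zero, ← map_sub, Submodule.mkQ_apply,
      Submodule.Quotient.mk_eq_zero]
    exact hmem g h3 v
  -- Hirsch lengths
  have hN1 : Hi N (⊤ : Subgroup G₁) := by
    have h1 := (hHA Q).2.2.1 N ⊤ G₁ (by
      rw [Subgroup.relIndex_top_right]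
      exact hG₁.index_ne_zero) hN
    rw [inf_top_eq] at h1
    have h2 := (hHA Q).2.2.2.2.2 G₁ G₁.subtype Subtype.val_injective N G₁ (by
      rw [Subgroup.range_subtype]) h1
    have h3 : G₁.comap G₁.subtype = ⊤ := by
      rw [Subgroup.comap_subtype]
      exact Subgroup.subgroupOf_self G₁
    rwa [h3] at h2
  let μ' : G₁ →* (Module.End ℚ (V ⧸ M))ˣ := μ.toHomUnits
  have hμ' : ∀ g, ((μ' g : (Module.End ℚ (V ⧸ M))ˣ) : Module.End ℚ (V ⧸ M)) = μ g := fun g => rfl
  obtain ⟨a, b, hab, ha, hb⟩ := hHB G₁ _ μ' N ⊤ hN1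
  rw [top_inf_eq] at ha
  have hbR : Hi b (⊤ : Subgroup μ'.range) := by
    rw [← MonoidHom.range_eq_map] at hb
    have h2 := (hHA (Module.End ℚ (V ⧸ M))ˣ).2.2.2.2.2 μ'.range μ'.range.subtype
      Subtype.val_injective b μ'.range (by rw [Subgroup.range_subtype]) hb
    have h3 : μ'.range.comap μ'.range.subtype = ⊤ := by
      rw [Subgroup.comap_subtype]
      exact Subgroup.subgroupOf_self _
    rwa [h3] at h2
  have hRn : Group.IsNilpotent μ'.range :=
    Group.nilpotent_of_surjective μ'.rangeRestrict μ'.rangeRestrict_surjective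
  have hRs : Group.IsSolvable μ'.range := inferInstance
  have hnt : Nontrivial (V ⧸ M) := Submodule.Quotient.nontrivial_iff.2 hMtop
  let ρR : μ'.range →* Module.End ℚ (V ⧸ M) :=
    (Units.coeHom (Module.End ℚ (V ⧸ M))).comp μ'.range.subtype
  have hρR : ∀ x : μ'.range, ∃ g : G₁, ρR x = μ g ∧ (x : (Module.End ℚ (V ⧸ M))ˣ) = μ' g := by
    rintro ⟨_, g, rfl⟩
    exact ⟨g, rfl, rfl⟩
  obtain ⟨U', a', b', k, L, M', h1, -, -, -, -, h6, h7, h8, h9, -, -⟩ := hFLG (V ⧸ M) μ'.range hRs ρR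
    (fun x => by
      obtain ⟨g, hg, -⟩ := hρR x
      rw [hg]
      exact NPB_int M.mkQ M.mkQ_surjective (ρ₁ g) (μ g) (hμ g) (hint g)) b hbR
  have ha' : a' = 0 := by
    refine (hHA μ'.range).2.2.2.1 a' U' (fun x hx => ⟨1, one_pos, ?_⟩) h6
    obtain ⟨g, hg, hg'⟩ := hρR x
    have h10 := h1 x hx
    rw [hg] at h10
    have h11 : x = 1 := by
      apply Subtype.ext
      rw [hg']
      apply Units.ext
      rw [hμ', hkey g h10]
      rfl
    rw [h11, one_pow]
  refine ⟨μ'.ker.map G₁.subtype, M, a, b, ?_, ?_, ?_, hab, ?_⟩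
  · rintro _ ⟨g, hg, rfl⟩
    have h10 : μ g = 1 := by
      rw [← hμ', show μ' g = 1 from hg]
      rfl
    have h11 : g ∈ U₀ := by
      refine (hU₀ g).2 (hI2 g 1 fun x => ?_)
      rw [pow_one, NPB_sub]
      induction x using TensorProduct.induction_on with
      | zero =>
        rw [map_zero]
        exact I.zero_mem
      | tmul c v =>
        rw [NPB_tmul]
        refine hMI' c _ ?_
        have h12 := hμ g v
        rw [h10, Module.End.one_apply, ← sub_eq_zero, ← map_sub, Submodule.mkQ_apply,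
          Submodule.Quotient.mk_eq_zero] at h12
        exact h12
      | add x y hx hy =>
        rw [map_add]
        exact I.add_mem hx hy
    exact (NPB_nil ρ₁ g).1 ((hU₀ g).1 h11)
  · rintro _ ⟨g, hg, rfl⟩ v
    have h10 : μ g = 1 := by
      rw [← hμ', show μ' g = 1 from hg]
      rfl
    have h12 := hμ g v
    rw [h10, Module.End.one_apply, ← sub_eq_zero, ← map_sub, Submodule.mkQ_apply,
      Submodule.Quotient.mk_eq_zero] at h12
    exact h12
  · exact NPB_map hHA hHB G₁.subtype Subtype.val_injective a μ'.ker ha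
  · have h13 := Submodule.finrank_quotient_add_finrank M
    omega

end Pool.Agent.NH
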